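import Pool.Agent.H31.Supra.Conc

/-!
Concentration of bounded displacement maps from regular trees for supramenable actions.
-/

set_option autoImplicit false
set_option linter.unusedSimpArgs false
set_option linter.unusedVariables false
set_option linter.unusedSectionVars false

open scoped Pointwise ENNReal Topology
open Filter

namespace H28.TS

open H31.Supra

/-- There is a finitely additive invariant measure on all subsets of `X` with `μ A = 1`. -/
def HasMeasureX (K : Type*) {X : Type*} [Group K] [MulAction K X] (A : Set X) : Prop :=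
  ∃ μ : Set X → ℝ≥0∞,
    μ ∅ = 0 ∧ (∀ B C : Set X, Disjoint B C → μ (B ∪ C) = μ B + μ C) ∧
    (∀ (g : K) (B : Set X), μ (g • B) = μ B) ∧ μ A = 1

/-- A binary tree with bounded displacement contradicts the existence of a measure. -/
theorem not_hasMeasureX_range {G X : Type*} [Group G] [MulAction G X] (ψ : List Bool → X)
    (hψ : Function.Injective ψ) (S : Finset G)
    (hS : ∀ u b, ∃ s ∈ S, ψ (u ++ [b]) = s • ψ u) : ¬ HasMeasureX G (Set.range ψ) := by
  classical
  rintro ⟨μ, h0, hadd, hinv, hR⟩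
  choose s hsS hs using hS
  have key : ∀ b : Bool, μ (Set.range (fun u => ψ (u ++ [b]))) = 1 := by
    intro b
    let P : G → Set X := fun x => ψ '' {u | s u b = x}
    have e1 : Set.range ψ = ⋃ x ∈ S, P x := by
      ext z
      simp only [Set.mem_range, Set.mem_iUnion, P, Set.mem_image, Set.mem_ofPred_eq]
      constructor
      · rintro ⟨u, rfl⟩
        exact ⟨s u b, hsS u b, u, rfl, rfl⟩
      · rintro ⟨x, _, u, _, rfl⟩
        exact ⟨u, rfl⟩
    have e2 : Set.range (fun u => ψ (u ++ [b])) = ⋃ x ∈ S, x • P x := by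
      ext z
      simp only [Set.mem_range, Set.mem_iUnion, P, Set.mem_smul_set, Set.mem_image,
        Set.mem_ofPred_eq]
      constructor
      · rintro ⟨u, rfl⟩
        exact ⟨s u b, hsS u b, ψ u, ⟨u, rfl, rfl⟩, (hs u b).symm⟩
      · rintro ⟨x, _, y, ⟨u, hu, rfl⟩, rfl⟩
        exact ⟨u, by rw [hs, hu]⟩
    have d1 : ((S : Set G)).PairwiseDisjoint P := by
      intro x _ y _ hxy
      rw [Function.onFun, Set.disjoint_left]
      rintro z ⟨u, hu, rfl⟩ ⟨u', hu', h⟩
      have := hψ h
      subst this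
      exact hxy (hu.symm.trans hu')
    have d2 : ((S : Set G)).PairwiseDisjoint (fun x => x • P x) := by
      intro x _ y _ hxy
      rw [Function.onFun, Set.disjoint_left]
      rintro z hz hz'
      obtain ⟨_, ⟨u, hu, rfl⟩, rfl⟩ := hz
      obtain ⟨_, ⟨u', hu', rfl⟩, h⟩ := hz'
      simp only [Set.mem_ofPred_eq] at hu hu'
      rw [← hu, ← hu'] at h
      change s u' b • ψ u' = s u b • ψ u at h
      rw [← hs, ← hs] at h
      have h2 := List.append_inj_left (hψ h) (by
        have := congrArg List.length (hψ h)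
        simpa using this)
      subst h2
      exact hxy (hu.symm.trans hu')
    rw [e2, sum_of_add h0 hadd S _ d2, ← hR, e1, sum_of_add h0 hadd S _ d1]
    exact Finset.sum_congr rfl (fun x _ => hinv x _)
  have hdisj : Disjoint (Set.range (fun u => ψ (u ++ [false])))
      (Set.range (fun u => ψ (u ++ [true]))) := by
    rw [Set.disjoint_left]
    rintro z ⟨u, rfl⟩ ⟨u', h⟩
    have h1 := hψ h
    have h2 := List.append_inj_right h1 (by
      have := congrArg List.length h1
      simpa using this)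
    simp at h2
  have hsub : Set.range (fun u => ψ (u ++ [false])) ∪ Set.range (fun u => ψ (u ++ [true])) ⊆
      Set.range ψ := by
    rintro z (⟨u, rfl⟩ | ⟨u, rfl⟩)
    · exact ⟨_, rfl⟩
    · exact ⟨_, rfl⟩
  have h2 := mono_of_add hadd hsub
  rw [hadd _ _ hdisj, key, key, hR] at h2
  norm_num at h2

theorem walkX_append {G X W : Type*} [Group G] [MulAction G X] [DecidableEq G] (g : List W → X)
    (S : Finset G) (hS : ∀ w t, ∃ s ∈ S, g (w :: t) = s • g t) (t : List W) :
    ∀ s : List W, ∃ x ∈ S ^ s.length, g (s ++ t) = x • g t := by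
  intro s
  induction s with
  | nil => exact ⟨1, by simp, by simp⟩
  | cons w s ih =>
    obtain ⟨x, hx, hx2⟩ := ih
    obtain ⟨y, hy, hy2⟩ := hS w (s ++ t)
    refine ⟨y * x, ?_, ?_⟩
    · rw [List.length_cons, pow_succ']
      exact Finset.mul_mem_mul hy hx
    · rw [List.cons_append, hy2, hx2, mul_smul]

open Classical in
/-- In a supramenable action, bounded displacement maps from regular trees concentrate. -/
theorem concentratesX {G X : Type*} [Group G] [MulAction G X]
    (hG : ∀ A : Set X, A.Nonempty → HasMeasureX G A) {q : ℕ} (hq : 0 < q) (S : Finset G)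
    (g : List (Fin q) → X) (hS : ∀ w t, ∃ s ∈ S, g (w :: t) = s • g t)
    (C ρ : ℝ) (hρ0 : 0 < ρ) (hρ : ρ < 1) :
    ∃ (t : List (Fin q)) (n : ℕ) (x : X),
      C * (ρ * q) ^ n < ({s : List (Fin q) | s.length = n ∧ g (s ++ t) = x}.ncard : ℝ) := by
  by_contra hcon
  push Not at hcon
  let C' : ℝ := max C 1
  have hC1 : 1 ≤ C' := le_max_right _ _
  have hq0 : (0 : ℝ) < q := by exact_mod_cast hq
  have hcount : ∀ t n x, lev n (ind g x) t ≤ C' * (ρ * q) ^ n := by
    intro t n x
    rw [lev_ind_eq_ncard]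
    exact (hcon t n x).trans (mul_le_mul_of_nonneg_right (le_max_left _ _) (by positivity))
  -- choice of the block length
  obtain ⟨m, hm⟩ := exists_pow_lt_of_lt_one (show (0 : ℝ) < 1 / (256 * C') by positivity) hρ
  have hW : Nonempty (Fin m → Fin q) := ⟨fun _ => ⟨0, hq⟩⟩
  have hcard : (Fintype.card (Fin m → Fin q) : ℝ) = (q : ℝ) ^ m := by
    simp
  let g' : List (Fin m → Fin q) → X := fun t => g (flat t)
  let γ : ℕ → ℝ := fun n => C' * ((ρ * q) ^ m) ^ n
  have hγ : ∀ n, 0 ≤ γ n := fun n => by positivity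
  have hmult : ∀ t n x, lev n (ind g' x) t ≤ γ n := by
    intro t n x
    have h1 := lev_ind_le g' x n t (fun s => flat s)
      ((desc (m * n) (flat t)).filter (fun s => g s = x)) (by
        intro s hs hgs
        rw [Finset.mem_filter]
        rw [mem_desc] at hs
        obtain ⟨u, hu, rfl⟩ := hs
        refine ⟨?_, hgs⟩
        rw [mem_desc]
        exact ⟨flat u, by rw [flat_length, hu], by rw [flat_append]⟩) (by
        intro s hs s' hs' _ _ h
        rw [mem_desc] at hs hs'
        obtain ⟨u, hu, rfl⟩ := hs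
        obtain ⟨u', hu', rfl⟩ := hs'
        exact flat_inj _ _ (by simp [hu, hu']) h)
    refine h1.trans ?_
    have h2 : (((desc (m * n) (flat t)).filter (fun s => g s = x)).card : ℝ) =
        lev (m * n) (ind g x) (flat t) := by
      rw [lev_eq_sum, Finset.card_filter]
      push_cast
      apply Finset.sum_congr rfl
      intro s _
      unfold ind
      congr!
    rw [h2]
    refine (hcount _ _ _).trans (le_of_eq ?_)
    simp only [γ]
    rw [← pow_mul]
  have hsum : ∀ j₀, ∑ j ∈ Finset.range (j₀ + 1),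
      (32 / (Fintype.card (Fin m → Fin q) : ℝ)) ^ (j + 1) * γ (j + 1) ≤ 1 / 4 := by
    intro j₀
    rw [hcard]
    set x : ℝ := 32 * ρ ^ m with hx
    have hx0 : 0 ≤ x := by positivity
    have hCx : C' * x ≤ 1 / 8 := by
      have : ρ ^ m * (256 * C') ≤ 1 := by
        rw [lt_div_iff₀ (by positivity)] at hm
        exact hm.le
      rw [hx]
      linarith
    have hx1 : x ≤ 1 / 8 := by nlinarith
    have e1 : ∀ j, (32 / (q : ℝ) ^ m) ^ (j + 1) * γ (j + 1) = C' * x * x ^ j := by
      intro j
      simp only [γ, hx]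
      have hqm : (q : ℝ) ^ m ≠ 0 := by positivity
      calc (32 / (q : ℝ) ^ m) ^ (j + 1) * (C' * ((ρ * q) ^ m) ^ (j + 1)) =
          C' * ((32 / (q : ℝ) ^ m) * (ρ * q) ^ m) ^ (j + 1) := by rw [mul_pow]; ring
        _ = C' * (32 * ρ ^ m) ^ (j + 1) := by
          congr 2
          rw [mul_pow]
          field_simp
        _ = C' * (32 * ρ ^ m) * (32 * ρ ^ m) ^ j := by rw [pow_succ]; ring
    simp only [e1]
    rw [← Finset.mul_sum]
    have h2 : ∑ j ∈ Finset.range (j₀ + 1), x ^ j ≤ 2 := by
      have h3 : (∑ j ∈ Finset.range (j₀ + 1), x ^ j) * (1 - x) = 1 - x ^ (j₀ + 1) := by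
        have := geom_sum_mul x (j₀ + 1)
        linarith
      have h4 : 0 ≤ x ^ (j₀ + 1) := by positivity
      have h5 : 0 ≤ ∑ j ∈ Finset.range (j₀ + 1), x ^ j := by positivity
      nlinarith
    have h6 : 0 ≤ C' * x := by positivity
    nlinarith
  have hrb : ∀ j, ∃ e : BT (Fin m → Fin q), BT.Full j e ∧ ((BT.pos e []).map g').Nodup := by
    intro j
    obtain ⟨e, h1, h2, -⟩ := rainbow g' γ hγ hmult hsum j [] (fun _ => 0) (fun _ => le_rfl) 1
      (by norm_num)
    exact ⟨e, h1, h2⟩
  obtain ⟨p, hp1, hp2⟩ := exists_infinite g' hrb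
  refine not_hasMeasureX_range (fun u => g' (p u)) hp1 (S ^ m) ?_ (hG _ ⟨_, ⟨[], rfl⟩⟩)
  intro u b
  obtain ⟨w, hw⟩ := hp2 u b
  obtain ⟨x, hx, hx2⟩ := walkX_append g S hS (flat (p u)) (List.ofFn w)
  rw [List.length_ofFn] at hx
  refine ⟨x, hx, ?_⟩
  change g (flat (p (u ++ [b]))) = x • g (flat (p u))
  rw [hw, flat_cons]
  exact hx2

end H28.TS
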