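import Pool.Agent.H28.TS.Main

/-!
Measures invariant under two commuting free actions.
-/

set_option autoImplicit false

open scoped Pointwise ENNReal

namespace H28.TS

open H31.Comm H31.Supra

/-- There is a finitely additive measure on all subsets of `X`, invariant under both groups, with
`μ A = 1`. -/
def BiHas (L R : Type*) {X : Type*} [Group L] [Group R] [MulAction L X] [MulAction R X]
    (A : Set X) : Prop :=
  ∃ μ : Set X → ℝ≥0∞,
    μ ∅ = 0 ∧ (∀ B C : Set X, Disjoint B C → μ (B ∪ C) = μ B + μ C) ∧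
    (∀ (l : L) (B : Set X), μ (l • B) = μ B) ∧ (∀ (r : R) (B : Set X), μ (r • B) = μ B) ∧ μ A = 1

theorem BiHas.symm {L R X : Type*} [Group L] [Group R] [MulAction L X] [MulAction R X]
    {A : Set X} (h : BiHas L R A) : BiHas R L A := by
  obtain ⟨μ, h0, h1, h2, h3, h4⟩ := h
  exact ⟨μ, h0, h1, h3, h2, h4⟩

/-- the action of the product -/
@[reducible] def prodAct (L R X : Type*) [Group L] [Group R] [MulAction L X] [MulAction R X]
    (hc : ∀ (l : L) (r : R) (x : X), l • r • x = r • l • x) : MulAction (L × R) X where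
  smul k x := k.1 • k.2 • x
  one_smul x := by
    change (1 : L) • (1 : R) • x = x
    rw [one_smul, one_smul]
  mul_smul := by
    intro k k' x
    change (k.1 * k'.1) • (k.2 * k'.2) • x = k.1 • k.2 • k'.1 • k'.2 • x
    rw [mul_smul, mul_smul, ← hc k'.1 k.2]

section

variable {L R X : Type*} [Group L] [Group R] [MulAction L X] [MulAction R X]

theorem supra_left (x₀ : X) (hL : ∀ (l : L) (x : X), l • x = x → l = 1)
    (h : ∀ A : Set X, A.Nonempty → BiHas L R A) : Supra L := by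
  intro A hA
  have hinj : Function.Injective (fun l : L => l • x₀) := by
    intro a b hab
    have : (b⁻¹ * a) • x₀ = x₀ := by
      rw [mul_smul]
      change b⁻¹ • (fun l : L => l • x₀) a = x₀
      rw [hab]
      exact inv_smul_smul b x₀
    exact (inv_mul_eq_one.1 (hL _ _ this)).symm
  obtain ⟨μ, h0, hadd, hl, -, h1⟩ := h ((fun l : L => l • x₀) '' A) (hA.image _)
  refine ⟨fun B => μ ((fun l : L => l • x₀) '' B), by simpa using h0, ?_, ?_, h1⟩
  · intro B C hBC
    change μ ((fun l : L => l • x₀) '' (B ∪ C)) = _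
    rw [Set.image_union]
    exact hadd _ _ ((Set.disjoint_image_iff hinj).2 hBC)
  · intro g B
    have e : (fun l : L => l • x₀) '' (g • B) = g • ((fun l : L => l • x₀) '' B) := by
      ext z
      constructor
      · rintro ⟨_, ⟨b, hb, rfl⟩, rfl⟩
        exact ⟨b • x₀, ⟨b, hb, rfl⟩, (mul_smul g b x₀).symm⟩
      · rintro ⟨_, ⟨b, hb, rfl⟩, rfl⟩
        exact ⟨g * b, ⟨b, hb, rfl⟩, mul_smul g b x₀⟩
    change μ ((fun l : L => l • x₀) '' (g • B)) = _
    rw [e, hl]

theorem bi_sub (x₀ : X) (hc : ∀ (l : L) (r : R) (x : X), l • r • x = r • l • x)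
    (hL : ∀ (l : L) (x : X), l • x = x → l = 1) (hR : ∀ (r : R) (x : X), r • x = x → r = 1)
    (h : ∀ A : Set X, A.Nonempty → BiHas L R A) : LS L ∨ LS R := by
  classical
  letI : MulAction (L × R) X := prodAct L R X hc
  have hK : ∀ A : Set X, A.Nonempty → HasMeasureX (L × R) A := by
    intro A hA
    obtain ⟨μ, h0, hadd, hl, hr, h1⟩ := h A hA
    refine ⟨μ, h0, hadd, ?_, h1⟩
    rintro ⟨l, r⟩ B
    have e : (l, r) • B = l • r • B := by
      ext z
      constructor
      · rintro ⟨b, hb, rfl⟩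
        exact ⟨r • b, ⟨b, hb, rfl⟩, rfl⟩
      · rintro ⟨_, ⟨b, hb, rfl⟩, rfl⟩
        exact ⟨b, hb, rfl⟩
    rw [e, hl, hr]
  rw [LS_iff, LS_iff]
  by_contra hcon
  push Not at hcon
  obtain ⟨⟨S, hS⟩, W, hW⟩ := hcon
  have hcl₁ : ∀ k ∈ Subgroup.closure ((S.image (MonoidHom.inl L R) : Finset (L × R)) :
      Set (L × R)), k.2 = 1 := by
    intro k hk
    have h1 : Subgroup.closure ((S.image (MonoidHom.inl L R) : Finset (L × R)) : Set (L × R)) ≤
        (MonoidHom.snd L R).ker := by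
      rw [Subgroup.closure_le]
      intro x hx
      rw [Finset.mem_coe, Finset.mem_image] at hx
      obtain ⟨a, _, rfl⟩ := hx
      rfl
    exact h1 hk
  have hcl₂ : ∀ k ∈ Subgroup.closure ((W.image (MonoidHom.inr L R) : Finset (L × R)) :
      Set (L × R)), k.1 = 1 := by
    intro k hk
    have h1 : Subgroup.closure ((W.image (MonoidHom.inr L R) : Finset (L × R)) : Set (L × R)) ≤
        (MonoidHom.fst L R).ker := by
      rw [Subgroup.closure_le]
      intro x hx
      rw [Finset.mem_coe, Finset.mem_image] at hx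
      obtain ⟨a, _, rfl⟩ := hx
      rfl
    exact h1 hk
  rcases sub_or_sub_of_free x₀ hK (S.image (MonoidHom.inl L R)) (W.image (MonoidHom.inr L R)) (by
    intro x hx y hy
    obtain ⟨a, _, rfl⟩ := Finset.mem_image.1 hx
    obtain ⟨b, _, rfl⟩ := Finset.mem_image.1 hy
    simp) (by
    rintro ⟨l, r⟩ hk x hx
    have h1 : r = 1 := hcl₁ _ hk
    subst h1
    have h2 : l • (1 : R) • x = x := hx
    rw [one_smul] at h2
    rw [hL l x h2]
    rfl) (by
    rintro ⟨l, r⟩ hk x hx
    have h1 : l = 1 := hcl₂ _ hk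
    subst h1
    have h2 : (1 : L) • r • x = x := hx
    rw [one_smul] at h2
    rw [hR r x h2]
    rfl) with h1 | h1
  · exact hS (h1.of_map _ (fun a b hab => (Prod.mk.inj hab).1))
  · exact hW (h1.of_map _ (fun a b hab => (Prod.mk.inj hab).2))

theorem biHas_of_supra (hc : ∀ (l : L) (r : R) (x : X), l • r • x = r • l • x)
    (h : Supra (L × R)) (A : Set X) (hA : A.Nonempty) : BiHas L R A := by
  obtain ⟨a, ha⟩ := hA
  let π : L × R → X := fun k => k.1 • k.2 • a
  obtain ⟨μ, h0, hadd, hinv, h1⟩ := h (π ⁻¹' A) ⟨1, by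
    change (1 : L) • (1 : R) • a ∈ A
    rwa [one_smul, one_smul]⟩
  refine ⟨fun B => μ (π ⁻¹' B), by simpa using h0, ?_, ?_, ?_, h1⟩
  · intro B C hBC
    change μ (π ⁻¹' (B ∪ C)) = _
    rw [Set.preimage_union]
    exact hadd _ _ (hBC.preimage π)
  · intro l B
    have e : π ⁻¹' (l • B) = (l, (1 : R)) • (π ⁻¹' B) := by
      ext k
      rw [Set.mem_preimage, Set.mem_smul_set_iff_inv_smul_mem, Set.mem_smul_set_iff_inv_smul_mem,
        Set.mem_preimage]
      change l⁻¹ • k.1 • k.2 • a ∈ B ↔ (l⁻¹ * k.1) • ((1 : R)⁻¹ * k.2) • a ∈ B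
      rw [inv_one, one_mul, mul_smul]
    change μ (π ⁻¹' (l • B)) = _
    rw [e, hinv]
  · intro r B
    have e : π ⁻¹' (r • B) = ((1 : L), r) • (π ⁻¹' B) := by
      ext k
      rw [Set.mem_preimage, Set.mem_smul_set_iff_inv_smul_mem, Set.mem_smul_set_iff_inv_smul_mem,
        Set.mem_preimage]
      change r⁻¹ • k.1 • k.2 • a ∈ B ↔ ((1 : L)⁻¹ * k.1) • (r⁻¹ * k.2) • a ∈ B
      rw [inv_one, one_mul, mul_smul, hc k.1 r⁻¹]
    change μ (π ⁻¹' (r • B)) = _
    rw [e, hinv]

/-- **The criterion** for commuting free actions. -/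
theorem bi_iff (x₀ : X) (hc : ∀ (l : L) (r : R) (x : X), l • r • x = r • l • x)
    (hL : ∀ (l : L) (x : X), l • x = x → l = 1) (hR : ∀ (r : R) (x : X), r • x = x → r = 1) :
    (∀ A : Set X, A.Nonempty → BiHas L R A) ↔ Supra L ∧ Supra R ∧ (LS L ∨ LS R) := by
  constructor
  · intro h
    exact ⟨supra_left x₀ hL h, supra_left x₀ hR (fun A hA => (h A hA).symm), bi_sub x₀ hc hL hR h⟩
  · intro h
    exact biHas_of_supra hc (supra_prod_iff.2 h)

end

section OneGroup

variable {G : Type*} [Group G]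

/-- there is a two-sided invariant measure with `μ A = 1` -/
def TwoHas (A : Set G) : Prop :=
  ∃ μ : Set G → ℝ≥0∞,
    μ ∅ = 0 ∧ (∀ B C : Set G, Disjoint B C → μ (B ∪ C) = μ B + μ C) ∧
    (∀ (g : G) (B : Set G), μ ((fun x => g * x) '' B) = μ B) ∧
    (∀ (g : G) (B : Set G), μ ((fun x => x * g) '' B) = μ B) ∧ μ A = 1

theorem LS.op (h : LS Gᵐᵒᵖ) : LS G := by
  classical
  rw [LS_iff] at h ⊢
  intro S
  exact (h (S.image (MulEquiv.inv' G).toMonoidHom)).of_map _ (MulEquiv.inv' G).injective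

theorem two_iff : (∀ A : Set G, A.Nonempty → TwoHas A) ↔ LS G := by
  have hc : ∀ (l : G) (r : Gᵐᵒᵖ) (x : G), l • r • x = r • l • x := by
    intro l r x
    simp [mul_assoc]
  have hL : ∀ (l : G) (x : G), l • x = x → l = 1 := by
    intro l x h
    simpa using h
  have hR : ∀ (r : Gᵐᵒᵖ) (x : G), r • x = x → r = 1 := by
    intro r x h
    rw [MulOpposite.smul_eq_mul_unop] at h
    have h1 : r.unop = 1 := by simpa using h
    exact MulOpposite.unop_injective h1
  have hiff := bi_iff (L := G) (R := Gᵐᵒᵖ) (X := G) 1 hc hL hR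
  have e : ∀ A : Set G, TwoHas A ↔ BiHas G Gᵐᵒᵖ A := by
    intro A
    constructor
    · rintro ⟨μ, h0, hadd, hl, hr, h1⟩
      exact ⟨μ, h0, hadd, hl, fun r B => hr r.unop B, h1⟩
    · rintro ⟨μ, h0, hadd, hl, hr, h1⟩
      exact ⟨μ, h0, hadd, hl, fun r B => hr (MulOpposite.op r) B, h1⟩
  constructor
  · intro h
    rcases (hiff.1 (fun A hA => (e A).1 (h A hA))).2.2 with h1 | h1
    · exact h1
    · exact LS.op h1
  · intro h A hA
    have hsG : Supra G := h.supra
    have hsR : Supra Gᵐᵒᵖ :=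
      hsG.of_surjective (MulEquiv.inv' G).toMonoidHom (MulEquiv.inv' G).surjective
    exact (e A).2 (hiff.2 ⟨hsG, hsR, Or.inl h⟩ A hA)

end OneGroup

end H28.TS
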