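import Pool.Agent.H28.TS.Total
import Pool.Agent.H28.TS.Conc
import Pool.Agent.H31.Comm.Final

/-!
Commuting finite sets of exponential growth generating subgroups which act freely.
-/

set_option autoImplicit false

open scoped Pointwise ENNReal

namespace H28.TS

open H31.Comm H31.Supra

variable {K : Type*} [Group K]

theorem ev_mem_closure {q : ℕ} [NeZero q] {T : TD K q} {F : Finset K} (hT : T.Good F) :
    ∀ t : List (Fin q), T.Val t → T.ev t ∈ Subgroup.closure (F : Set K) := by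
  intro t
  induction t with
  | nil => intro _; exact one_mem _
  | cons d t ih =>
    intro hv
    exact mul_mem (ih hv.1) (Subgroup.subset_closure (hT.letF t d hv.1))

theorem evl_inv_smul {q : ℕ} {T : Bool → TD K q} {X : Type*} [MulAction K X] (g : K) (x₀ : X)
    (U L₁ L₂ : List (Lev K q))
    (h : (ZL T g (U ++ L₁))⁻¹ • x₀ = (ZL T g (U ++ L₂))⁻¹ • x₀) :
    (ZL T g L₁)⁻¹ • x₀ = (ZL T g L₂)⁻¹ • x₀ := by
  induction U with
  | nil => exact h
  | cons u U ih =>
    simp only [List.cons_append, ZL, mul_inv_rev, mul_smul] at h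
    exact ih (smul_left_cancel _ (smul_left_cancel _ h))

/-- The orbit map separates states which agree except for one level. -/
theorem sep {q : ℕ} [NeZero q] {T : Bool → TD K q} {F : Bool → Finset K}
    (hT : ∀ c, (T c).Good (F c)) {X : Type*} [MulAction K X] (x₀ : X)
    (hfree : ∀ c, ∀ k ∈ Subgroup.closure ((F c : Finset K) : Set K), ∀ x : X, k • x = x → k = 1) :
    Sep T F (fun k : K => k⁻¹ • x₀) := by
  intro j S S' hS hS' h hζ
  obtain ⟨g, U, x, y, D, hD, hsim⟩ := h
  have h1 := evl_inv_smul g x₀ U _ _ hζ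
  simp only [ZL] at h1
  rw [hsim.e] at h1
  simp only [mul_inv_rev, mul_smul] at h1
  have h2 := smul_left_cancel _ h1
  have hx := hS.lev x (by simp)
  have hy := hS'.lev y (by simp)
  have hc := hsim.c
  have hvx := hx.val
  rw [hc] at h2 hvx
  have h3 : ((T y.c).ev y.p * ((T y.c).ev x.p)⁻¹) • ((ZL T g D)⁻¹ • x₀) = (ZL T g D)⁻¹ • x₀ := by
    rw [mul_smul, h2, smul_inv_smul]
  have h4 := hfree y.c _ (mul_mem (ev_mem_closure (hT y.c) _ hy.val)
    (inv_mem (ev_mem_closure (hT y.c) _ hvx))) _ h3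
  have h5 : (T y.c).ev x.p = (T y.c).ev y.p := (mul_inv_eq_one.1 h4).symm
  have hp := (hT y.c).inj x.p y.p hvx hy.val hsim.len h5
  rw [hsim.eq hp]

theorem sub_or_sub_of_free [DecidableEq K] {X : Type*} [MulAction K X] (x₀ : X)
    (hK : ∀ A : Set X, A.Nonempty → HasMeasureX K A) (S₀ S₁ : Finset K)
    (hcomm : ∀ x ∈ S₀, ∀ y ∈ S₁, x * y = y * x)
    (hf₀ : ∀ k ∈ Subgroup.closure (S₀ : Set K), ∀ x : X, k • x = x → k = 1)
    (hf₁ : ∀ k ∈ Subgroup.closure (S₁ : Set K), ∀ x : X, k • x = x → k = 1) :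
    Sub S₀ ∨ Sub S₁ := by
  classical
  by_contra hcon
  rw [not_or] at hcon
  -- trees
  have key : ∀ S : Finset K, ¬ Sub S → ∀ (q : ℕ) [NeZero q], 2 ≤ q →
      ∃ (b : ℕ) (T : TD K q), T.Good ((insert 1 S) ^ b) := by
    intro S hS q _ hq
    apply exists_tree _ (Finset.mem_insert_self _ _) _ q hq
    unfold H31.Comm.Sub at hS
    push Not at hS
    obtain ⟨c, hc, h⟩ := hS
    refine ⟨c, hc, fun C => ?_⟩
    obtain ⟨n, hn⟩ := h C
    refine ⟨n, hn.trans_le ?_⟩
    exact_mod_cast Finset.card_le_card (Finset.pow_subset_pow_left (Finset.subset_insert _ _))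
  have hcomm' : ∀ x ∈ insert 1 S₀, ∀ y ∈ insert 1 S₁, x * y = y * x := by
    intro x hx y hy
    rw [Finset.mem_insert] at hx hy
    rcases hx with rfl | hx
    · simp
    · rcases hy with rfl | hy
      · simp
      · exact hcomm x hx y hy
  have hcl : ∀ (S : Finset K) (b : ℕ), Subgroup.closure (((insert 1 S) ^ b : Finset K) : Set K) ≤
      Subgroup.closure (S : Set K) := by
    intro S b
    rw [Subgroup.closure_le]
    intro x hx
    rw [Finset.coe_pow] at hx
    have h1 : ((insert 1 S : Finset K) : Set K) ⊆ Subgroup.closure (S : Set K) := by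
      intro y hy
      rw [Finset.mem_coe, Finset.mem_insert] at hy
      rcases hy with rfl | hy
      · exact one_mem _
      · exact Subgroup.subset_closure hy
    induction b generalizing x with
    | zero =>
      rw [pow_zero, Set.mem_one] at hx
      rw [hx]
      exact one_mem _
    | succ b ih =>
      rw [pow_succ, Set.mem_mul] at hx
      obtain ⟨y, hy, z, hz, rfl⟩ := hx
      exact mul_mem (ih hy) (h1 hz)
  obtain ⟨q, hqdef⟩ : ∃ q : ℕ, q = 64 ^ 8 := ⟨_, rfl⟩
  have hq2 : 2 ≤ q := by rw [hqdef]; norm_num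
  have : NeZero q := ⟨by omega⟩
  obtain ⟨b₀, T₀, hT₀⟩ := key S₀ hcon.1 q hq2
  obtain ⟨b₁, T₁, hT₁⟩ := key S₁ hcon.2 q hq2
  let T : Bool → TD K q := fun c => cond c T₁ T₀
  let F : Bool → Finset K := fun c => cond c ((insert 1 S₁) ^ b₁) ((insert 1 S₀) ^ b₀)
  have hT : ∀ c, (T c).Good (F c) := by
    intro c
    cases c
    · exact hT₀
    · exact hT₁
  have hF : Com F := by
    intro c x hx y hy
    cases c
    · exact comm_pow hcomm' b₀ b₁ x hx y hy
    · exact (comm_pow hcomm' b₀ b₁ y hy x hx).symm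
  have hfree : ∀ c, ∀ k ∈ Subgroup.closure ((F c : Finset K) : Set K), ∀ x : X,
      k • x = x → k = 1 := by
    intro c
    cases c
    · intro k hk
      exact hf₀ k (hcl S₀ b₀ hk)
    · intro k hk
      exact hf₁ k (hcl S₁ b₁ hk)
  have hsep : Sep T F (fun k : K => k⁻¹ • x₀) := sep hT x₀ hfree
  let R₀ : St K q := ⟨1, [Lev.new K q false]⟩
  have hR₀ : WF T F R₀ := WF.init
  let dec : Fin (q * q) → Fin q × Fin q := fun i => finProdFinEquiv.symm i
  have hdec : Function.Injective dec := finProdFinEquiv.symm.injective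
  let g : List (Fin (q * q)) → X := fun w => (Z T (run T R₀ (w.map dec)))⁻¹ • x₀
  let E : Finset K := (finite_Ltr F).toFinset
  let S : Finset K := (E ×ˢ E).image (fun p : K × K => (p.1 * p.2)⁻¹)
  have hS : ∀ w t, ∃ s ∈ S, g (w :: t) = s • g t := by
    intro w t
    obtain ⟨a, ha, b, hb, h⟩ := Z_step hT hF (hR₀.run hT (t.map dec)) (dec w)
    refine ⟨(a * b)⁻¹, ?_, ?_⟩
    · apply Finset.mem_image.2
      exact ⟨(a, b), Finset.mem_product.2 ⟨(Set.Finite.mem_toFinset _).2 ha,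
        (Set.Finite.mem_toFinset _).2 hb⟩, rfl⟩
    · show (Z T (run T R₀ ((w :: t).map dec)))⁻¹ • x₀ = _
      rw [List.map_cons, run, h, mul_inv_rev, mul_smul]
  have hqq : 0 < q * q := by positivity
  obtain ⟨t, n, x, hx⟩ := concentratesX hK hqq S g hS (2 * 64 ^ 2) (1 / 2)
    (by norm_num) (by norm_num)
  set R := run T R₀ (t.map dec) with hR
  have hRW : WF T F R := hR₀.run hT _
  have h1 : ({s : List (Fin (q * q)) | s.length = n ∧ g (s ++ t) = x}.ncard) ≤
      ((words (Fin q × Fin q) n).filter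
        (fun w => (fun k : K => k⁻¹ • x₀) (Z T (run T R w)) = x)).card := by
    rw [← Set.ncard_coe_finset]
    apply Set.ncard_le_ncard_of_injOn (fun s => s.map dec)
    · rintro s ⟨hs1, hs2⟩
      simp only [Finset.coe_filter, Set.mem_ofPred_eq, mem_words, List.length_map]
      refine ⟨hs1, ?_⟩
      rw [← hs2]
      show _ = (Z T (run T R₀ ((s ++ t).map dec)))⁻¹ • x₀
      rw [List.map_append, run_append]
    · intro a _ b _ hab
      exact List.map_injective_iff.2 hdec hab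
  have h2 : ((words (Fin q × Fin q) n).filter
      (fun w => (fun k : K => k⁻¹ • x₀) (Z T (run T R w)) = x)).card * 64 ^ n ≤
      (2 * n + 1) * 64 ^ 2 * (16 * q ^ 2) ^ n := by
    convert totalX hT hsep hRW (Q := 64) (by norm_num) hqdef n x
  have h3 : ({s : List (Fin (q * q)) | s.length = n ∧ g (s ++ t) = x}.ncard) * 64 ^ n ≤
      (2 * 2 ^ n) * 64 ^ 2 * (16 * q ^ 2) ^ n := by
    refine le_trans (Nat.mul_le_mul_right _ h1) (h2.trans ?_)
    exact Nat.mul_le_mul_right _ (Nat.mul_le_mul_right _ (two_mul_add_one_le n))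
  have h4 : (({s : List (Fin (q * q)) | s.length = n ∧ g (s ++ t) = x}.ncard : ℕ) : ℝ) * 64 ^ n ≤
      (2 * 2 ^ n) * 64 ^ 2 * (16 * (q : ℝ) ^ 2) ^ n := by exact_mod_cast h3
  have h5 : (2 * 2 ^ n) * 64 ^ 2 * (16 * (q : ℝ) ^ 2) ^ n =
      (2 * 64 ^ 2 * (1 / 2 * ((q * q : ℕ) : ℝ)) ^ n) * 64 ^ n := by
    push_cast
    have : (16 * (q : ℝ) ^ 2) = (1 / 2 * ((q : ℝ) * q)) * 32 := by ring
    rw [this, mul_pow (1 / 2 * ((q : ℝ) * q)) 32 n]
    have h64 : (64 : ℝ) ^ n = 2 ^ n * 32 ^ n := by rw [← mul_pow]; norm_num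
    rw [h64]
    ring
  rw [h5] at h4
  have h6 : (0 : ℝ) < 64 ^ n := by positivity
  exact absurd (le_of_mul_le_mul_right h4 h6) (not_le.2 hx)

end H28.TS
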