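import Pool.Agent.H31.Comm.Total

/-!
The count of `H31.Comm` for a colouring `ζ` of the positions which separates states that agree except
for one level.
-/

set_option autoImplicit false
set_option linter.unusedSectionVars false

namespace H28.TS

open H31.Comm

variable {K : Type*} [Group K] {q : ℕ} [NeZero q] {T : Bool → TD K q} {F : Bool → Finset K}
  {X : Type*} {ζ : K → X}

/-- `ζ` separates well formed states which agree except for one level -/
def Sep (T : Bool → TD K q) (F : Bool → Finset K) (ζ : K → X) : Prop :=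
  ∀ (j : ℕ) (S S' : St K q), WF T F S → WF T F S' → Agr j S S' → ζ (Z T S) = ζ (Z T S') → S = S'

open Classical in
theorem countX (hT : ∀ c, (T c).Good (F c)) (hζ : Sep T F ζ) {S : St K q} (hS : WF T F S)
    (j n : ℕ) (z : X) :
    ∑ w ∈ (words (Fin q × Fin q) n).filter (fun w => Live T j S w ∧ ζ (Z T (run T S w)) = z),
      q ^ (nrj T j (run T S w)) ≤ q ^ (nrj T j S) * (16 * q ^ 2) ^ n := by
  set A := (words (Fin q × Fin q) n).filter (fun w => Live T j S w ∧ ζ (Z T (run T S w)) = z)
    with hA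
  have hinj : Set.InjOn (trc T j S) (A : Set (List (Fin q × Fin q))) := by
    intro w hw w' hw' h
    rw [Finset.mem_coe, hA, Finset.mem_filter] at hw hw'
    have h1 := agr_run j S w w' h hw.2.1
    have h2 := hζ j _ _ (hS.run hT w) (hS.run hT w') h1 (by rw [hw.2.2, hw'.2.2])
    exact trc_inj j S w w' h hw.2.1 h2
  calc ∑ w ∈ A, q ^ (nrj T j (run T S w)) ≤
        ∑ w ∈ A, q ^ (nrj T j S) * ((trc T j S w).map om).prod := by
        apply Finset.sum_le_sum
        intro w hw
        rw [hA, Finset.mem_filter] at hw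
        exact weight_trc j S w hw.2.1
    _ = q ^ (nrj T j S) * ∑ t ∈ A.image (trc T j S), (t.map om).prod := by
        rw [Finset.sum_image hinj, Finset.mul_sum]
    _ ≤ q ^ (nrj T j S) * ∑ t ∈ words (Sy q) n, (t.map om).prod := by
        apply Nat.mul_le_mul_left
        apply Finset.sum_le_sum_of_subset
        intro t ht
        obtain ⟨w, hw, rfl⟩ := Finset.mem_image.1 ht
        rw [hA, Finset.mem_filter, mem_words] at hw
        rw [mem_words, length_trc, hw.1]
    _ = _ := by rw [sum_prod_words]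

open Classical in
theorem partAX (hT : ∀ c, (T c).Good (F c)) (hζ : Sep T F ζ) {S : St K q} (hS : WF T F S) {Q : ℕ} (hQ : 0 < Q)
    (hq : q = Q ^ 8) (n k : ℕ) (z : X) :
    ((words (Fin q × Fin q) n).filter (fun w => Live T k S w ∧ ζ (Z T (run T S w)) = z ∧
      n + 8 * nrj T k S ≤ 8 * nrj T k (run T S w) + 2)).card * Q ^ n ≤ Q ^ 2 * (16 * q ^ 2) ^ n := by
  have hqp : ∀ i : ℕ, q ^ i = Q ^ (8 * i) := by
    intro i
    rw [hq, ← pow_mul]
  have hqpos : 0 < q ^ nrj T k S := pow_pos (by rw [hq]; positivity) _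
  refine Nat.le_of_mul_le_mul_right ?_ hqpos
  calc ((words (Fin q × Fin q) n).filter (fun w => Live T k S w ∧ ζ (Z T (run T S w)) = z ∧
        n + 8 * nrj T k S ≤ 8 * nrj T k (run T S w) + 2)).card * Q ^ n * q ^ nrj T k S
      = ∑ w ∈ (words (Fin q × Fin q) n).filter (fun w => Live T k S w ∧ ζ (Z T (run T S w)) = z ∧
        n + 8 * nrj T k S ≤ 8 * nrj T k (run T S w) + 2), Q ^ n * q ^ nrj T k S := by
        rw [Finset.sum_const, smul_eq_mul, mul_assoc]
    _ ≤ ∑ w ∈ (words (Fin q × Fin q) n).filter (fun w => Live T k S w ∧ ζ (Z T (run T S w)) = z ∧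
        n + 8 * nrj T k S ≤ 8 * nrj T k (run T S w) + 2), Q ^ 2 * q ^ nrj T k (run T S w) := by
        refine Finset.sum_le_sum fun w hw => ?_
        have h1 := (Finset.mem_filter.1 hw).2.2.2
        rw [hqp, hqp, ← pow_add, ← pow_add]
        exact Nat.pow_le_pow_right hQ (by omega)
    _ ≤ ∑ w ∈ (words (Fin q × Fin q) n).filter (fun w => Live T k S w ∧ ζ (Z T (run T S w)) = z),
        Q ^ 2 * q ^ nrj T k (run T S w) := by
        refine Finset.sum_le_sum_of_subset fun w hw => ?_
        rw [Finset.mem_filter] at hw ⊢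
        exact ⟨hw.1, hw.2.1, hw.2.2.1⟩
    _ = Q ^ 2 * ∑ w ∈ (words (Fin q × Fin q) n).filter
        (fun w => Live T k S w ∧ ζ (Z T (run T S w)) = z), q ^ nrj T k (run T S w) := by
        rw [Finset.mul_sum]
    _ ≤ Q ^ 2 * (q ^ nrj T k S * (16 * q ^ 2) ^ n) := Nat.mul_le_mul_left _ (countX hT hζ hS k n z)
    _ = Q ^ 2 * (16 * q ^ 2) ^ n * q ^ nrj T k S := by ring

open Classical in
theorem partBX (hT : ∀ c, (T c).Good (F c)) (hζ : Sep T F ζ) {S : St K q} (hS : WF T F S) {Q : ℕ} (hQ : 0 < Q)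
    (hq : q = Q ^ 8) (n t : ℕ) (ht : t ≤ n) (z : X) :
    ((words (Fin q × Fin q) n).filter (fun w => ζ (Z T (run T S w)) = z ∧ ∃ v u k, w = v ++ u ∧
      u.length = t ∧ (run T S u).L.length = k + 2 ∧ nrj T (k + 1) (run T S u) = 0 ∧
      Live T (k + 1) (run T S u) v ∧ n ≤ 8 * nrj T (k + 1) (run T S w))).card * Q ^ n ≤
      (16 * q ^ 2) ^ n := by
  have hqp : ∀ i : ℕ, q ^ i = Q ^ (8 * i) := by
    intro i
    rw [hq, ← pow_mul]
  -- the words above a fixed `u`
  let A : List (Fin q × Fin q) → Finset (List (Fin q × Fin q)) := fun u =>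
    (words (Fin q × Fin q) (n - t)).filter (fun v =>
      nrj T ((run T S u).L.length - 1) (run T S u) = 0 ∧
      Live T ((run T S u).L.length - 1) (run T S u) v ∧ ζ (Z T (run T (run T S u) v)) = z ∧
      n ≤ 8 * nrj T ((run T S u).L.length - 1) (run T (run T S u) v))
  have hA : ∀ u, (A u).card * Q ^ n ≤ (16 * q ^ 2) ^ (n - t) := by
    intro u
    by_cases h0 : nrj T ((run T S u).L.length - 1) (run T S u) = 0
    · calc (A u).card * Q ^ n = ∑ v ∈ A u, Q ^ n := by rw [Finset.sum_const, smul_eq_mul]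
        _ ≤ ∑ v ∈ A u, q ^ nrj T ((run T S u).L.length - 1) (run T (run T S u) v) := by
          refine Finset.sum_le_sum fun v hv => ?_
          have h1 := (Finset.mem_filter.1 hv).2.2.2.2
          rw [hqp]
          exact Nat.pow_le_pow_right hQ h1
        _ ≤ ∑ v ∈ (words (Fin q × Fin q) (n - t)).filter
            (fun v => Live T ((run T S u).L.length - 1) (run T S u) v ∧
              ζ (Z T (run T (run T S u) v)) = z),
            q ^ nrj T ((run T S u).L.length - 1) (run T (run T S u) v) := by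
          refine Finset.sum_le_sum_of_subset fun v hv => ?_
          have h1 := Finset.mem_filter.1 hv
          rw [Finset.mem_filter]
          exact ⟨h1.1, h1.2.2.1, h1.2.2.2.1⟩
        _ ≤ q ^ nrj T ((run T S u).L.length - 1) (run T S u) * (16 * q ^ 2) ^ (n - t) :=
          countX hT hζ (hS.run hT u) _ _ _
        _ = (16 * q ^ 2) ^ (n - t) := by rw [h0, pow_zero, one_mul]
    · have : A u = ∅ := by
        refine Finset.filter_false_of_mem fun v _ h => h0 h.1
      rw [this]
      simp
  have hsub : (words (Fin q × Fin q) n).filter (fun w => ζ (Z T (run T S w)) = z ∧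
      ∃ v u k, w = v ++ u ∧ u.length = t ∧ (run T S u).L.length = k + 2 ∧
      nrj T (k + 1) (run T S u) = 0 ∧
      Live T (k + 1) (run T S u) v ∧ n ≤ 8 * nrj T (k + 1) (run T S w)) ⊆
      (words (Fin q × Fin q) t).biUnion (fun u => (A u).image (fun v => v ++ u)) := by
    intro w hw
    rw [Finset.mem_filter] at hw
    obtain ⟨hwn, hz, v, u, k, rfl, hu, hk, h0, hL, hn⟩ := hw
    rw [Finset.mem_biUnion]
    refine ⟨u, (mem_words t u).2 hu, Finset.mem_image.2 ⟨v, ?_, rfl⟩⟩
    have hlen := (mem_words n _).1 hwn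
    rw [List.length_append] at hlen
    have hkk : (run T S u).L.length - 1 = k + 1 := by omega
    rw [Finset.mem_filter, hkk]
    rw [run_append] at hz hn
    exact ⟨(mem_words _ _).2 (by omega), h0, hL, hz, hn⟩
  have hcard : ((words (Fin q × Fin q) t).biUnion (fun u => (A u).image (fun v => v ++ u))).card
      ≤ ∑ u ∈ words (Fin q × Fin q) t, (A u).card :=
    Finset.card_biUnion_le.trans (Finset.sum_le_sum fun u _ => Finset.card_image_le)
  calc _ ≤ (∑ u ∈ words (Fin q × Fin q) t, (A u).card) * Q ^ n :=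
        Nat.mul_le_mul_right _ ((Finset.card_le_card hsub).trans hcard)
    _ = ∑ u ∈ words (Fin q × Fin q) t, (A u).card * Q ^ n := by rw [Finset.sum_mul]
    _ ≤ ∑ u ∈ words (Fin q × Fin q) t, (16 * q ^ 2) ^ (n - t) :=
        Finset.sum_le_sum fun u _ => hA u
    _ = (q ^ 2) ^ t * (16 * q ^ 2) ^ (n - t) := by
        rw [Finset.sum_const, smul_eq_mul, card_words, Fintype.card_prod, Fintype.card_fin, sq]
    _ ≤ (16 * q ^ 2) ^ t * (16 * q ^ 2) ^ (n - t) := by
        refine Nat.mul_le_mul_right _ (Nat.pow_le_pow_left ?_ _)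
        omega
    _ = (16 * q ^ 2) ^ n := by
        rw [← pow_add]
        congr 1
        omega

open Classical in
theorem totalX (hT : ∀ c, (T c).Good (F c)) (hζ : Sep T F ζ) {S : St K q} (hS : WF T F S) {Q : ℕ} (hQ : 0 < Q)
    (hq : q = Q ^ 8) (n : ℕ) (z : X) :
    ((words (Fin q × Fin q) n).filter (fun w => ζ (Z T (run T S w)) = z)).card * Q ^ n ≤
      (2 * n + 1) * Q ^ 2 * (16 * q ^ 2) ^ n := by
  let A : ℕ → Finset (List (Fin q × Fin q)) := fun k =>
    (words (Fin q × Fin q) n).filter (fun w => Live T k S w ∧ ζ (Z T (run T S w)) = z ∧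
      n + 8 * nrj T k S ≤ 8 * nrj T k (run T S w) + 2)
  let B : ℕ → Finset (List (Fin q × Fin q)) := fun t =>
    (words (Fin q × Fin q) n).filter (fun w => ζ (Z T (run T S w)) = z ∧ ∃ v u k, w = v ++ u ∧
      u.length = t ∧ (run T S u).L.length = k + 2 ∧ nrj T (k + 1) (run T S u) = 0 ∧
      Live T (k + 1) (run T S u) v ∧ n ≤ 8 * nrj T (k + 1) (run T S w))
  have hsub : (words (Fin q × Fin q) n).filter (fun w => ζ (Z T (run T S w)) = z) ⊆
      ((Finset.Ico (S.L.length - (n + 1)) S.L.length).biUnion A) ∪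
        ((Finset.range n).biUnion B) := by
    intro w hw
    rw [Finset.mem_filter] at hw
    obtain ⟨hwn, hz⟩ := hw
    have hlen : w.length = n := (mem_words n w).1 hwn
    obtain ⟨k, hL, hk, h⟩ := dich hT hS w
    have hlk := live_length S k w hL
    have hkI : k ∈ Finset.Ico (S.L.length - (n + 1)) S.L.length := by
      rw [Finset.mem_Ico]
      omega
    rw [Finset.mem_union]
    rcases h with h | ⟨v, u, hvu, h1, h2, h3, h4, h5⟩
    · left
      rw [Finset.mem_biUnion]
      refine ⟨k, hkI, Finset.mem_filter.2 ⟨hwn, hL, hz, ?_⟩⟩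
      have hb := top_b (hS.run hT w) k h
      have hf := (live_facts S k w hL).1
      rw [hb] at hf
      omega
    · have hlvu : v.length + u.length = n := by
        rw [← hlen, hvu, List.length_append]
      by_cases ht : n ≤ 2 * u.length
      · left
        rw [Finset.mem_biUnion]
        refine ⟨k, hkI, Finset.mem_filter.2 ⟨hwn, hL, hz, ?_⟩⟩
        rw [hvu] at hL
        obtain ⟨hu, hv⟩ := live_append S k v u hL
        have hf := (live_facts S k u hu).1
        have hg := (live_facts (run T S u) k v hv).2.1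
        rw [← run_append, ← hvu] at hg
        rw [h4] at hf
        omega
      · right
        rw [Finset.mem_biUnion]
        refine ⟨u.length, Finset.mem_range.2 (by omega), Finset.mem_filter.2 ⟨hwn, hz, v, u, k,
          hvu, rfl, h1, h3, h5, ?_⟩⟩
        have hg := (live_facts (run T S u) (k + 1) v h5).2.2
        have hl := (live_length (run T S u) (k + 1) v h5).2
        rw [← run_append, ← hvu] at hg hl
        have ht2 := tj_le hT (hS.run hT w) (k + 1) hl
        rw [h2] at hg
        omega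
  have hcA : ((Finset.Ico (S.L.length - (n + 1)) S.L.length).biUnion A).card * Q ^ n ≤
      (n + 1) * (Q ^ 2 * (16 * q ^ 2) ^ n) := by
    calc _ ≤ (∑ k ∈ Finset.Ico (S.L.length - (n + 1)) S.L.length, (A k).card) * Q ^ n :=
          Nat.mul_le_mul_right _ Finset.card_biUnion_le
      _ = ∑ k ∈ Finset.Ico (S.L.length - (n + 1)) S.L.length, (A k).card * Q ^ n := by
          rw [Finset.sum_mul]
      _ ≤ ∑ k ∈ Finset.Ico (S.L.length - (n + 1)) S.L.length, Q ^ 2 * (16 * q ^ 2) ^ n :=
          Finset.sum_le_sum fun k _ => partAX hT hζ hS hQ hq n k z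
      _ ≤ (n + 1) * (Q ^ 2 * (16 * q ^ 2) ^ n) := by
          rw [Finset.sum_const, smul_eq_mul, Nat.card_Ico]
          exact Nat.mul_le_mul_right _ (by omega)
  have hcB : ((Finset.range n).biUnion B).card * Q ^ n ≤ n * (16 * q ^ 2) ^ n := by
    calc _ ≤ (∑ t ∈ Finset.range n, (B t).card) * Q ^ n :=
          Nat.mul_le_mul_right _ Finset.card_biUnion_le
      _ = ∑ t ∈ Finset.range n, (B t).card * Q ^ n := by rw [Finset.sum_mul]
      _ ≤ ∑ t ∈ Finset.range n, (16 * q ^ 2) ^ n :=
          Finset.sum_le_sum fun t ht => partBX hT hζ hS hQ hq n t (Finset.mem_range.1 ht).le z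
      _ = n * (16 * q ^ 2) ^ n := by
          rw [Finset.sum_const, smul_eq_mul, Finset.card_range]
  have hQ2 : 1 ≤ Q ^ 2 := Nat.one_le_pow _ _ hQ
  calc _ ≤ (((Finset.Ico (S.L.length - (n + 1)) S.L.length).biUnion A).card +
        ((Finset.range n).biUnion B).card) * Q ^ n :=
        Nat.mul_le_mul_right _ ((Finset.card_le_card hsub).trans (Finset.card_union_le _ _))
    _ = ((Finset.Ico (S.L.length - (n + 1)) S.L.length).biUnion A).card * Q ^ n +
        ((Finset.range n).biUnion B).card * Q ^ n := by rw [add_mul]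
    _ ≤ (n + 1) * (Q ^ 2 * (16 * q ^ 2) ^ n) + n * (16 * q ^ 2) ^ n := add_le_add hcA hcB
    _ ≤ (n + 1) * (Q ^ 2 * (16 * q ^ 2) ^ n) + n * (Q ^ 2 * (16 * q ^ 2) ^ n) := by
        refine Nat.add_le_add_left (Nat.mul_le_mul_left _ ?_) _
        exact Nat.le_mul_of_pos_left _ hQ2
    _ = (2 * n + 1) * Q ^ 2 * (16 * q ^ 2) ^ n := by ring


end H28.TS
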